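import Pool.Agent.helper13.U4.SpecD

set_option autoImplicit false

/-! # u4:DE1. The rows `2h+1`, `2h+2`, `2h+3` -/

namespace Pool.Agent.U4

theorem DE1_w1 {h q v : ℕ} {x : ℕ → ℕ → Bool} (hL : FL h q v x) {ρ σ a : ℕ} (hρ : 1 ≤ ρ)
    (hσ : σ < v) (ha : a ≤ σ) (hx : x a ρ = true) : Wit v x ρ σ ρ a 0 (σ - a) :=
  ⟨hx, hL.r0 _ (by omega), by omega, by omega, by omega, Or.inl ⟨by omega, by omega⟩⟩

theorem DE1_w2 {h q v : ℕ} {x : ℕ → ℕ → Bool} (hL : FL h q v x) {ρ σ a : ℕ} (hρ : 1 ≤ ρ)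
    (hσ : σ < a) (ha : a < v) (hx : x a ρ = true) : Wit v x (ρ + 2) σ ρ a 0 (σ + v - a) :=
  ⟨hx, hL.r0 _ (by omega), by omega, by omega, by omega, Or.inr ⟨by omega, by omega⟩⟩

theorem DE1_11 {h q v : ℕ} {x : ℕ → ℕ → Bool} (hL : FL h q v x) {ρ σ a b : ℕ} (hρ : 1 ≤ ρ)
    (hσ : σ < v) (ha : a ≤ σ) (hb : b ≤ σ) (hab : a ≠ b) (hxa : x a ρ = true) (hxb : x b ρ = true) :
    TwoW v x ρ σ :=
  ⟨ρ, a, 0, σ - a, ρ, b, 0, σ - b, DE1_w1 hL hρ hσ ha hxa, DE1_w1 hL hρ hσ hb hxb,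
    by omega, by omega⟩

theorem DE1_22 {h q v : ℕ} {x : ℕ → ℕ → Bool} (hL : FL h q v x) {ρ σ a b : ℕ} (hρ : 1 ≤ ρ)
    (ha : σ < a) (hb : σ < b) (ha' : a < v) (hb' : b < v) (hab : a ≠ b) (hxa : x a ρ = true)
    (hxb : x b ρ = true) : TwoW v x (ρ + 2) σ :=
  ⟨ρ, a, 0, σ + v - a, ρ, b, 0, σ + v - b, DE1_w2 hL hρ ha ha' hxa, DE1_w2 hL hρ hb hb' hxb,
    by omega, by omega⟩

theorem DE1_12 {h q v : ℕ} {x : ℕ → ℕ → Bool} (hL : FL h q v x) {ρ σ a b : ℕ} (hρ : 1 ≤ ρ)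
    (ha : a ≤ σ) (hb : σ < b) (hb' : b < v) (hxa : x a (ρ + 2) = true)
    (hxb : x b ρ = true) : TwoW v x (ρ + 2) σ :=
  ⟨ρ + 2, a, 0, σ - a, ρ, b, 0, σ + v - b, DE1_w1 hL (by omega) (by omega) ha hxa,
    DE1_w2 hL hρ hb hb' hxb, by omega, by omega⟩

theorem DE1_par {k q h v : ℕ} (hP : Par k q h v) :
    4 ≤ h ∧ h % 4 = 0 ∧ 14 * h ≤ v + 1 ∧
      (2 * q - 1) * h + (h - 1) = v - h ∧ (2 * q - 1) * h + (h - 2) = v - h - 1 ∧
      (2 * q - 1) * h + (h - 3) = v - h - 2 := by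
  obtain ⟨hk, hh, hq, hv⟩ := hP
  obtain ⟨j, rfl⟩ := Nat.exists_eq_add_of_le hk
  obtain ⟨p, rfl⟩ := Nat.exists_eq_add_of_le hq
  have h0 : 1 ≤ 2 ^ j := Nat.one_le_two_pow
  have h4 : h = 4 * 2 ^ j := by rw [hh, pow_add]; norm_num
  have e1 : 2 * (7 + p) - 1 = 2 * p + 13 := by omega
  have e2 : (2 * p + 13) * h = 2 * (p * h) + 13 * h := by ring
  have e3 : v + 1 = 2 * (p * h) + 15 * h := by rw [hv]; ring
  rw [e1, e2]
  generalize p * h = W at e3 ⊢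
  refine ⟨?_, ?_, ?_, ?_, ?_, ?_⟩ <;> omega

theorem DE1 : DE1_stmt := by
  intro k q h v x hP hL hH ρ σ h1 h2 hσ
  obtain ⟨h4, hm, h14, e1, e2, e3⟩ := DE1_par hP
  obtain ⟨_, _, hq, _⟩ := hP
  have hB : 3 ≤ 2 * q - 1 := by omega
  have hB2 : (2 * q - 1) % 2 = 1 := by omega
  obtain rfl | rfl | rfl : ρ = 2 * h + 1 ∨ ρ = 2 * h + 2 ∨ ρ = 2 * h + 3 := by omega
  · have m1 := hH.m1 (h - 1) (by omega)
    have m2 := hH.m1 (h - 2) (by omega)
    have b1 := hH.b1 1 1 (by norm_num) (by norm_num) (by omega) (by omega)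
    have b3 := hH.b1 1 3 (by norm_num) (by norm_num) (by omega) (by omega)
    have hr : 2 * h + 1 = (2 * h - 1) + 2 := by omega
    rcases lt_trichotomy σ (2 * h - 2) with hs | hs | hs
    · rw [hr]
      exact DE1_22 hL (by omega) (by omega) (by omega) (by omega) (by omega) (by omega) m1 m2
    · rw [hr]
      rw [hr] at b1
      exact DE1_12 hL (by omega) (by omega) (by omega) (by omega) b1 m1
    · exact DE1_11 hL (by omega) hσ (by omega) (by omega) (by omega) b1 b3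
  · by_cases hs : σ + h + 1 < v
    · have b1 := hH.b0 (2 * q - 1) (h - 1) hB hB2 (by omega) (by omega)
      have b2 := hH.b0 (2 * q - 1) (h - 2) hB hB2 (by omega) (by omega)
      rw [e1] at b1
      rw [e2] at b2
      exact DE1_22 hL (by omega) (by omega) (by omega) (by omega) (by omega) (by omega) b1 b2
    · exact DE1_11 hL (by omega) hσ (by omega) (by omega) (by omega)
        (hH.a2 h (by omega) (by omega)) (hH.a2 (h + 1) (by omega) (by omega))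
  · by_cases hs : σ + h + 2 < v
    · have b1 := hH.b1 (2 * q - 1) (h - 1) hB2 (by omega) (by omega) (by omega)
      have b2 := hH.b1 (2 * q - 1) (h - 3) hB2 (by omega) (by omega) (by omega)
      rw [e1] at b1
      rw [e3] at b2
      exact DE1_22 (ρ := 2 * h + 1) hL (by omega) (by omega) (by omega) (by omega) (by omega)
        (by omega) b1 b2
    · exact DE1_11 hL (by omega) hσ (by omega) (by omega) (by omega)
        (hH.b3 0 (by omega)) (hH.b3 1 (by omega))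

end Pool.Agent.U4
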