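import Pool.Agent.helper13.U4.SpecD

set_option autoImplicit false

/-! # u4:TWA. All sums -/

namespace Pool.Agent.U4

open Pool.Agent.UL

theorem TWA_odd {k q h v : ℕ} (hP : Par k q h v) : v % 2 = 1 ∧ 1 ≤ v := by
  obtain ⟨hk, hh, hq, hv⟩ := hP
  obtain ⟨j, rfl⟩ := Nat.exists_eq_add_of_le hk
  have h0 : 1 ≤ 2 ^ j := Nat.one_le_two_pow
  have h4 : h = 4 * 2 ^ j := by rw [hh, pow_add]; norm_num
  have e3 : v + 1 = 2 * (h * q) + h := by rw [hv]; ring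
  omega

theorem TWA_dec (v s : ℕ) (hv : v % 2 = 1) (hs : ¬(s % 2 = 1 ∧ s < v)) :
    ∃ ρ σ, σ < v ∧ s = v * ρ + 2 * σ := by
  have hv0 : 0 < v := by omega
  rcases Nat.even_or_odd s with he | ho
  · obtain ⟨n, hn⟩ := he
    refine ⟨2 * (n / v), n % v, Nat.mod_lt _ hv0, ?_⟩
    have h1 : v * (n / v) + n % v = n := Nat.div_add_mod n v
    have h2 : v * (2 * (n / v)) = 2 * (v * (n / v)) := by ring
    omega
  · obtain ⟨n, hn⟩ : ∃ n, s = v + 2 * n := ⟨(s - v) / 2, by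
      have := Nat.odd_iff.mp ho
      omega⟩
    refine ⟨2 * (n / v) + 1, n % v, Nat.mod_lt _ hv0, ?_⟩
    have h1 : v * (n / v) + n % v = n := Nat.div_add_mod n v
    have h2 : v * (2 * (n / v) + 1) = 2 * (v * (n / v)) + v := by ring
    omega

theorem TWA (h1 : WTT_stmt) (h2 : DIR_stmt) (h3 : MAI_stmt) (h4 : MBI_stmt) : TWA_stmt := by
  intro k q h v F hP hF hL hH hK s s0 s2 s4 sv sv2 sv4 sodd
  obtain ⟨hv, _⟩ := TWA_odd hP
  obtain ⟨ρ, σ, hσ, hs⟩ := TWA_dec v s hv sodd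
  have hcast : (s : ℤ) = (v : ℤ) * ρ + 2 * σ := by
    rw [hs]; push_cast; ring
  rw [hcast]
  by_cases hρ : 4 * h + 17 ≤ ρ
  · exact h3 k q h v F ρ σ hP hF hL hH hK hρ hσ
  by_cases hD : ρ ≤ 2 * h + 6 ∨ σ ≤ 5 * h + 7 ∨ (v ≤ σ + 2 ∧ ρ ≤ 4 * h + 4)
  · refine h1 v F ρ σ hv (h2 k q h v (xF v F) hP hL hH ρ σ hσ ?_ (by omega) hD)
    by_contra hc
    push Not at hc
    obtain ⟨c1, c2⟩ := hc
    obtain rfl | rfl : ρ = 0 ∨ ρ = 1 := by omega
    · rw [mul_zero] at hs; omega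
    · rw [mul_one] at hs; omega
  · push Not at hD
    obtain ⟨d1, d2, d3⟩ := hD
    refine h4 k q h v F ρ σ hP hF hL hH hK (by omega) (by omega) (by omega) hσ ?_
    by_cases hc : σ + 2 < v
    · exact Or.inl hc
    · exact Or.inr (by have := d3 (by omega); omega)

end Pool.Agent.U4
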